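import Pool.Agent.helper9.HX.Spec

set_option autoImplicit false

open Finset
open scoped Classical
open Pool.Agent.helper65.HC (V IsEig IsTop lam)
open Pool.Agent.helper9.HQ (Fam Dn E N Le hi c)

namespace Pool.Agent.helper9.HX

open Pool.Agent.helper9

lemma CNA_split {α : Type*} (s : Finset α) (f : α → ℕ) :
    s.card = (s.filter fun x => f x = 0).card + (s.filter fun x => f x = 1).card +
      (s.filter fun x => f x = 2).card + (s.filter fun x => 3 ≤ f x).card := by
  induction s using Finset.induction_on with
  | empty => simp
  | insert a s ha ih =>
    rw [Finset.card_insert_of_notMem ha]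
    simp only [Finset.filter_insert]
    rcases Nat.lt_or_ge (f a) 3 with h | h
    · have h3 : f a = 0 ∨ f a = 1 ∨ f a = 2 := by omega
      rcases h3 with h3 | h3 | h3
      · rw [if_pos h3, if_neg (by omega), if_neg (by omega), if_neg (by omega),
          Finset.card_insert_of_notMem (by simp [ha])]
        omega
      · rw [if_neg (by omega), if_pos h3, if_neg (by omega), if_neg (by omega),
          Finset.card_insert_of_notMem (by simp [ha])]
        omega
      · rw [if_neg (by omega), if_neg (by omega), if_pos h3, if_neg (by omega),
          Finset.card_insert_of_notMem (by simp [ha])]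
        omega
    · rw [if_neg (by omega), if_neg (by omega), if_neg (by omega), if_pos h,
        Finset.card_insert_of_notMem (by simp [ha])]
      omega

theorem CNA : CNA_stmt := by
  intro d U hU
  constructor
  · have h0 : (U.filter fun x => x.card = 0) = {∅} := by
      ext x
      simp only [Finset.mem_filter, Finset.card_eq_zero, Finset.mem_singleton]
      constructor
      · exact fun h => h.2
      · rintro rfl
        exact ⟨hU, rfl⟩
    have h1 := CNA_split U (fun x => x.card)
    rw [h0, Finset.card_singleton] at h1
    exact h1
  · have hsub : (U.filter fun x => x.card = 1) ⊆ (univ : Finset (Fin d)).image (fun i => ({i} : Finset (Fin d))) := by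
      intro x hx
      rw [Finset.mem_filter, Finset.card_eq_one] at hx
      obtain ⟨i, rfl⟩ := hx.2
      exact Finset.mem_image.mpr ⟨i, Finset.mem_univ _, rfl⟩
    calc nu U ≤ ((univ : Finset (Fin d)).image (fun i => ({i} : Finset (Fin d)))).card :=
          Finset.card_le_card hsub
      _ ≤ (univ : Finset (Fin d)).card := Finset.card_image_le
      _ = d := by simp

end Pool.Agent.helper9.HX
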